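import Pool.Agent.Helper95.Lin.GoalsD
import Pool.Agent.Helper95.Lin.GoalsA

/-!
Real and imaginary parts of complex relations in a commutative family of generators.
-/

set_option autoImplicit false

namespace Pool.Agent.Helper85.Lin

open Complex Pool.Agent.Helper95.Lin

lemma inL_sum (hLADD : S_LADD) {b : ℕ} {D : Set (Cn b)} {Γ : Type} [Group Γ]
    {g : Γ → Cn b → Cn b} (hH : HAct D g) {m : ℕ} {V : Fin m → Cn b → Cn b}
    (hV : ∀ i, InL D g (V i)) (r : Fin m → ℝ) (s : Finset (Fin m)) :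
    InL D g (∑ j ∈ s, r j • V j) := by
  classical
  obtain ⟨h0, h1, h2⟩ := hLADD hH
  induction s using Finset.induction_on with
  | empty =>
    rw [Finset.sum_empty]
    exact h0
  | insert i s hi ih =>
    rw [Finset.sum_insert hi]
    exact h1 _ _ (h2 _ (hV i) _) ih

lemma fderiv_comb {b m : ℕ} {V : Fin m → Cn b → Cn b} {z : Cn b}
    (hV : ∀ i, DifferentiableAt ℂ (V i) z) (r : Fin m → ℝ) (u : Cn b) :
    fderiv ℂ (∑ j, r j • V j) z u = ∑ j, (r j : ℂ) • fderiv ℂ (V j) z u := by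
  have h1 : HasFDerivAt (∑ j, r j • V j) (∑ j, (r j : ℂ) • fderiv ℂ (V j) z) z := by
    have h2 : (∑ j, r j • V j) = fun y => ∑ j, (r j : ℂ) • V j y := by
      funext y
      simp [Finset.sum_apply]
    rw [h2]
    exact HasFDerivAt.fun_sum fun j _ => (hV j).hasFDerivAt.const_smul (r j : ℂ)
  rw [h1.fderiv]
  simp

lemma comb_apply {b m : ℕ} (V : Fin m → Cn b → Cn b) (r : Fin m → ℝ) (z : Cn b) :
    (∑ j, r j • V j) z = ∑ j, (r j : ℂ) • V j z := by
  simp [Finset.sum_apply]

theorem s_depf (hDEP : S_DEP) (hFLOWEX : S_FLOWEX) (hLADD : S_LADD) : S_DEPF := by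
  intro b D Γ _ g m V A hH hA z hz lam hlam
  set X : Cn b → Cn b := ∑ j, (lam j).re • V j with hX
  set Y : Cn b → Cn b := ∑ j, (lam j).im • V j with hY
  have hXL : InL D g X := inL_sum hLADD hH hA.inL _ _
  have hYL : InL D g Y := inL_sum hLADD hH hA.inL _ _
  obtain ⟨φ, hφ⟩ := hFLOWEX hH X hXL
  obtain ⟨ψ, hψ⟩ := hFLOWEX hH Y hYL
  have hbr : ∀ y ∈ D, brV X Y y = 0 := by
    intro y hy
    have hd : ∀ i, DifferentiableAt ℂ (V i) y := fun i =>
      (hA.inL i).1.differentiableAt (hH.dom.isOpen.mem_nhds hy)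
    unfold brV
    rw [hX, hY, fderiv_comb hd, fderiv_comb hd, comb_apply, comb_apply]
    simp only [map_sum, map_smul, Finset.smul_sum]
    rw [Finset.sum_comm, ← Finset.sum_sub_distrib]
    refine Finset.sum_eq_zero fun i _ => ?_
    rw [← Finset.sum_sub_distrib]
    refine Finset.sum_eq_zero fun j _ => ?_
    have h1 : fderiv ℂ (V j) y (V i y) - fderiv ℂ (V i) y (V j y) = 0 := hA.comm i j y hy
    rw [smul_comm (((lam j).im : ℝ) : ℂ), ← smul_sub, ← smul_sub, h1, smul_zero, smul_zero]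
  have hrel : X z + I • Y z = 0 := by
    rw [← hlam, hX, hY, comb_apply, comb_apply, Finset.smul_sum, ← Finset.sum_add_distrib]
    refine Finset.sum_congr rfl fun j _ => ?_
    rw [smul_smul, ← add_smul]
    congr 1
    rw [mul_comm]
    exact re_add_im (lam j)
  have hYX : Y z = I • X z := by
    have h1 : I • (X z + I • Y z) = 0 := by rw [hrel, smul_zero]
    rw [smul_add, smul_smul, I_mul_I, neg_one_smul] at h1
    have h2 : I • X z - Y z = 0 := by rw [sub_eq_add_neg]; exact h1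
    exact (sub_eq_zero.1 h2).symm
  have hX0 : X z = 0 := hDEP D hH.dom.isOpen hH.dom.bdd X Y φ ψ hXL.1 hYL.1 hφ hψ hbr z hz hYX
  have hY0 : Y z = 0 := by rw [hYX, hX0, smul_zero]
  constructor
  · have : ∑ j, (lam j).re • V j z = X z := by rw [hX]; simp [Finset.sum_apply]
    rw [this, hX0]
  · have : ∑ j, (lam j).im • V j z = Y z := by rw [hY]; simp [Finset.sum_apply]
    rw [this, hY0]

end Pool.Agent.Helper85.Lin
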