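import Pool.Agent.Helper95.Lin.GoalsI
import Pool.Agent.Helper95.Lin.GoalsA
import Pool.Agent.Helper95.Lin.GoalsF
import Pool.Agent.Helper95.Lin.GoalsG

/-!
The image of the group is discrete.
-/

set_option autoImplicit false

namespace Pool.Agent.Helper85.Lin

open Pool.Agent.Helper95.Lin

theorem s_discr (hDISC : S_DISC) (hALT : S_ALT) (hNOSS : S_NOSS) (hAPPK : S_APPK)
    (hNOAB : S_NOAB) : S_DISCR := by
  intro b D Γ _ g a β H hL hK
  refine hDISC hL.base fun hV => ?_
  rcases hALT hL.base hV with ⟨m, V, A, hA⟩ | ⟨p, B, P, hS⟩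
  · obtain ⟨h1, h2⟩ := hAPPK hL hK hA
    exact hNOAB hL.base hA h1 h2
  · exact hNOSS hL p B P hS

end Pool.Agent.Helper85.Lin
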