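import Pool.Agent.Helper95.Lin.GoalsH

/-!
A Kähler action gives an elliptic action.
-/

set_option autoImplicit false

namespace Pool.Agent.Helper85.Lin

open Pool.Agent.Helper95.Lin
open scoped ComplexOrder

theorem s_ke (hPHDIV : S_PHDIV) (hPHNAT : S_PHNAT) (hPHELL : S_PHELL) : S_KE := by
  intro n M Γ _ T H hK
  obtain ⟨h1, h2, h3⟩ := hPHDIV M H hK.act.isOpen (fun x hx => (hK.posDef x hx).isHermitian)
    hK.smooth hK.closed
  exact {
    act := hK.act
    conn := hK.conn
    proper := hK.proper
    coc := hK.coc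
    smooth := h1
    symm := h2
    div := h3
    nat := fun γ φ hφ x hx => hPHNAT M H (T γ) hK.act.isOpen (hK.act.maps γ) (hK.act.holo γ)
      (hK.inv γ) φ hφ x hx
    ell := fun K hKM hKc => hPHELL M H hK.act.isOpen hK.posDef
      (fun i j => (hK.smooth i j).continuousOn) K hKM hKc }

end Pool.Agent.Helper85.Lin
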