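import Pool.Agent.Helper95.Lin.GoalsD

/-!
Maximal solutions.
-/

set_option autoImplicit false

namespace Pool.Agent.Helper85.Lin

open Set Filter Topology Pool.Agent.Helper95.Lin

variable {b : ℕ} {D : Set (Cn b)} {V : Cn b → Cn b}

lemma Sol.restrict {z : Cn b} {T T' : ℝ} {x : ℝ → Cn b} (h : Sol D V z T x) (hT : T' ≤ T) :
    Sol D V z T' x :=
  ⟨h.1, fun t ht => ⟨(h.2 t ⟨ht.1, ht.2.trans hT⟩).1,
    (h.2 t ⟨ht.1, ht.2.trans hT⟩).2.mono (Icc_subset_Icc_right hT)⟩⟩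

lemma Sol.congr {z : Cn b} {T : ℝ} {x y : ℝ → Cn b} (h : Sol D V z T x) (hT : 0 ≤ T)
    (hxy : ∀ t ∈ Icc (0 : ℝ) T, y t = x t) : Sol D V z T y := by
  refine ⟨by rw [hxy 0 ⟨le_rfl, hT⟩, h.1], fun t ht => ?_⟩
  rw [hxy t ht]
  exact ⟨(h.2 t ht).1, (h.2 t ht).2.congr hxy (hxy t ht)⟩

/-- concatenation of solutions -/
lemma Sol.concat {z : Cn b} {T δ : ℝ} {x y : ℝ → Cn b} (hT : 0 ≤ T) (hδ : 0 ≤ δ)
    (hx : Sol D V z T x) (hy : Sol D V (x T) δ y) :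
    Sol D V z (T + δ) (fun t => if t ≤ T then x t else y (t - T)) := by
  set w : ℝ → Cn b := fun t => if t ≤ T then x t else y (t - T) with hw
  have hw1 : ∀ t ∈ Icc (0 : ℝ) T, w t = x t := fun t ht => if_pos ht.2
  have hw2 : ∀ t ∈ Icc T (T + δ), w t = y (t - T) := by
    intro t ht
    rcases ht.1.eq_or_lt with h | h
    · rw [← h, hw1 T ⟨hT, le_rfl⟩, sub_self, hy.1]
    · exact if_neg (not_le.2 h)
  have hd1 : ∀ t ∈ Icc (0 : ℝ) T, HasDerivWithinAt w (V (w t)) (Icc 0 T) t := by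
    intro t ht
    rw [hw1 t ht]
    exact (hx.2 t ht).2.congr hw1 (hw1 t ht)
  have hd2 : ∀ t ∈ Icc T (T + δ), HasDerivWithinAt w (V (w t)) (Icc T (T + δ)) t := by
    intro t ht
    rw [hw2 t ht]
    have h1 := (hy.2 (t - T) ⟨by linarith [ht.1], by linarith [ht.2]⟩).2
    have h2 : HasDerivWithinAt (fun s => y (s - T)) (V (y (t - T))) (Icc T (T + δ)) t := by
      have h3 : HasDerivWithinAt (fun s : ℝ => s - T) 1 (Icc T (T + δ)) t :=
        (hasDerivWithinAt_id t _).sub_const T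
      have hm : MapsTo (fun s : ℝ => s - T) (Icc T (T + δ)) (Icc 0 δ) := fun s hs =>
        ⟨by simpa using hs.1, by
          have := hs.2
          show s - T ≤ δ
          linarith⟩
      have h4 := h1.scomp t h3 hm
      simpa [Function.comp_def] using h4
    exact h2.congr hw2 (hw2 t ht)
  have hU : Icc (0 : ℝ) T ∪ Icc T (T + δ) = Icc 0 (T + δ) :=
    Icc_union_Icc_eq_Icc hT (by linarith)
  refine ⟨by rw [hw1 0 ⟨le_rfl, hT⟩, hx.1], fun t ht => ?_⟩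
  rcases le_or_gt t T with h | h
  · refine ⟨by rw [hw1 t ⟨ht.1, h⟩]; exact (hx.2 t ⟨ht.1, h⟩).1, ?_⟩
    rw [← hU]
    refine (hd1 t ⟨ht.1, h⟩).union ?_
    rcases h.eq_or_lt with h' | h'
    · exact hd2 t ⟨h'.ge, ht.2⟩
    · rw [hasDerivWithinAt_iff_hasFDerivWithinAt]
      refine HasFDerivWithinAt.of_notMem_closure ?_
      rw [closure_Icc]
      exact fun hh => absurd hh.1 (not_le.2 h')
  · refine ⟨by
      rw [hw2 t ⟨h.le, ht.2⟩]
      exact (hy.2 (t - T) ⟨by linarith, by linarith [ht.2]⟩).1, ?_⟩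
    rw [← hU]
    refine HasDerivWithinAt.union ?_ (hd2 t ⟨h.le, ht.2⟩)
    rw [hasDerivWithinAt_iff_hasFDerivWithinAt]
    refine HasFDerivWithinAt.of_notMem_closure ?_
    rw [closure_Icc]
    exact fun hh => absurd hh.2 (not_le.2 h)

lemma Sol.deriv_Ici {z : Cn b} {T t : ℝ} {x : ℝ → Cn b} (h : Sol D V z T x) (ht : 0 ≤ t)
    (htT : t < T) : HasDerivWithinAt x (V (x t)) (Ici 0) t := by
  refine (h.2 t ⟨ht, htT.le⟩).2.mono_of_mem_nhdsWithin ?_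
  rw [← Ici_inter_Iic]
  exact inter_mem_nhdsWithin _ (Iic_mem_nhds htT)

/-- local existence at one point -/
lemma exists_sol (hPLU : S_PLU) (hD : IsOpen D) (hV : DifferentiableOn ℂ V D) {z : Cn b}
    (hz : z ∈ D) : ∃ δ > 0, ∃ x, Sol D V z δ x := by
  obtain ⟨δ, hδ, h⟩ := hPLU (b := b) (m := 1) D hD (fun _ => V) (fun _ => hV) {z}
    (singleton_subset_iff.2 hz) isCompact_singleton
  refine ⟨δ, hδ, ?_⟩
  obtain ⟨x, hx⟩ := h (fun _ => 1) (by simp [pi_norm_const]) z rfl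
  refine ⟨x, ?_⟩
  have e : (fun y => ∑ k : Fin 1, (fun _ : Fin 1 => (1 : ℂ)) k • (fun _ : Fin 1 => V) k y) = V := by
    funext y
    simp
  rw [e] at hx
  exact hx

theorem s_maxsol (hPLU : S_PLU) (hUNI : S_UNI) : S_MAXSOL := by
  intro b D hD V hV z hz
  classical
  set A : Set ℝ := {T | 0 ≤ T ∧ ∃ x, Sol D V z T x} with hA
  set X : ℝ → Cn b := fun t => if ht : t ∈ A then Classical.choose ht.2 t else 0 with hX
  have hX1 : ∀ T x, Sol D V z T x → ∀ t ∈ Icc (0 : ℝ) T, X t = x t := by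
    intro T x hx t ht
    have htA : t ∈ A := ⟨ht.1, x, Sol.restrict hx ht.2⟩
    simp only [hX, dif_pos htA]
    exact hUNI D hD V hV z t _ _ (Classical.choose_spec htA.2) (Sol.restrict hx ht.2) t
      ⟨ht.1, le_rfl⟩
  have hX2 : ∀ T ∈ A, Sol D V z T X := by
    rintro T ⟨hT, x, hx⟩
    exact Sol.congr hx hT (hX1 T x hx)
  obtain ⟨δ₀, hδ₀, x₀, hx₀⟩ := exists_sol hPLU hD hV hz
  have hX0 : X 0 = z := (hX2 δ₀ ⟨hδ₀.le, x₀, hx₀⟩).1
  by_cases hB : BddAbove A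
  · right
    set T := sSup A with hT
    have hAδ : δ₀ ∈ A := ⟨hδ₀.le, x₀, hx₀⟩
    have hAne : A.Nonempty := ⟨δ₀, hAδ⟩
    have hTpos : 0 < T := hδ₀.trans_le (le_csSup hB hAδ)
    have hTA : T ∉ A := by
      intro hTA
      have h1 := hX2 T hTA
      have h2 := (h1.2 T ⟨hTpos.le, le_rfl⟩).1
      obtain ⟨δ, hδ, y, hy⟩ := exists_sol hPLU hD hV h2
      have h3 : T + δ ∈ A := ⟨by linarith, _, Sol.concat hTpos.le hδ.le h1 hy⟩
      have := le_csSup hB h3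
      linarith
    have hlt : ∀ t < T, ∃ T' ∈ A, t < T' := fun t ht => exists_lt_of_lt_csSup hAne ht
    refine ⟨T, hTpos, X, hX0, fun t ht => ?_, fun t ht δ hδ y hy => ?_⟩
    · obtain ⟨T', hT', htT⟩ := hlt t ht.2
      have h1 := hX2 T' hT'
      exact ⟨(h1.2 t ⟨ht.1, htT.le⟩).1, Sol.deriv_Ici h1 ht.1 htT⟩
    · obtain ⟨T', hT', htT⟩ := hlt t ht.2
      have h1 := Sol.restrict (hX2 T' hT') htT.le
      have h2 : t + δ ∈ A := ⟨by linarith [ht.1], _, Sol.concat ht.1 hδ h1 hy⟩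
      rcases (le_csSup hB h2).eq_or_lt with h3 | h3
      · rw [h3] at h2
        exact absurd h2 hTA
      · exact h3
  · left
    refine ⟨X, hX0, fun t ht => ?_⟩
    obtain ⟨T, hTA, hT⟩ := not_bddAbove_iff.1 hB t
    have h1 := hX2 T hTA
    exact ⟨(h1.2 t ⟨ht, hT.le⟩).1, Sol.deriv_Ici h1 ht hT⟩

end Pool.Agent.Helper85.Lin
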